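import Mathlib
import Pool.Agent.H256R2.EF.LEVBASE
import Pool.Agent.H256R2.EF.CONSTEP
import Pool.Agent.H256R2.EF.REC
import Pool.Agent.H256R2.EF.ASY1
import Pool.Agent.H256R2.EF.STEPAUX

/-! Practical numbers and `n!`: the construction. -/

set_option autoImplicit false

namespace Pool.Agent.H202HN

open Finset Pool.Agent.H256R2.EF Filter

theorem growth : ∃ l0 : ℕ, ∀ l ≥ l0, (655360 * l) ^ 20 * 8 ≤ 2 ^ l := by
  have h1 := tendsto_pow_const_div_const_pow_of_one_lt 20 (r := (2 : ℝ)) (by norm_num)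
  have h2 : ∀ᶠ n : ℕ in atTop, (n : ℝ) ^ 20 / 2 ^ n < 1 / (655360 ^ 20 * 8) :=
    h1.eventually_lt_const (by positivity)
  obtain ⟨l0, hl0⟩ := eventually_atTop.1 h2
  refine ⟨l0, fun l hl => ?_⟩
  have h3 := hl0 l hl
  rw [div_lt_div_iff₀ (by positivity) (by positivity)] at h3
  have h4 : ((655360 * l : ℕ) : ℝ) ^ 20 * 8 ≤ 2 ^ l := by
    push_cast
    rw [mul_pow]
    linarith
  exact_mod_cast h4

theorem growth2 : ∃ Y0 : ℕ, ∀ Y ≥ Y0, (655360 * Nat.clog 2 (4 * Y)) ^ 20 ≤ Y := by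
  obtain ⟨l0, hl0⟩ := growth
  refine ⟨2 ^ l0, fun Y hY => ?_⟩
  have hY1 : 1 ≤ Y := le_trans Nat.one_le_two_pow hY
  have h1 : l0 ≤ Nat.clog 2 (4 * Y) := by
    have h2 : 2 ^ l0 ≤ 4 * Y := by omega
    have h3 : Nat.clog 2 (2 ^ l0) ≤ Nat.clog 2 (4 * Y) := Nat.clog_mono_right 2 h2
    rwa [Nat.clog_pow 2 l0 (by norm_num)] at h3
  have h2 := hl0 _ h1
  have h3 : 2 ^ (Nat.clog 2 (4 * Y) - 1) < 4 * Y :=
    Nat.pow_pred_clog_lt_self (by norm_num) (by omega)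
  have h4 : 2 ^ Nat.clog 2 (4 * Y) ≤ 2 * 2 ^ (Nat.clog 2 (4 * Y) - 1) := by
    rw [← pow_succ']
    exact Nat.pow_le_pow_right (by norm_num) (by omega)
  omega

/-- the number of divisors needed is at most `cA * ℓ ^ 2` -/
def cA : ℕ := 4000000

theorem machine : ∃ Y0 : ℕ, 16 ≤ Y0 ∧ ∀ Y ≥ Y0, ∀ l : ℕ, l = Nat.clog 2 (4 * Y) →
    ∃ t e h : ℕ, ∃ V W : Finset ℕ, V ⊆ PP Y ∧ W ⊆ PP Y ∧ Disjoint W V ∧ V.card = 2 * t ∧ 0 < t ∧
      Y < (2 * t) ^ 20 ∧ e ≤ 1310720 * l ^ 2 ∧ h ≤ cA * l ^ 2 ∧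
      Rep ((∏ q ∈ V, q) * (2 ^ e * ∏ q ∈ W, q)) ((∏ q ∈ V, q) * (2 ^ e * ∏ q ∈ W, q)) h := by
  obtain ⟨Y1, hstep⟩ := con_step
  obtain ⟨Y2, hmany⟩ := STEPAUX.many
  obtain ⟨Y3, hg⟩ := growth2
  refine ⟨16 + Y1 + Y2 + Y3, by omega, fun Y hY l hl => ?_⟩
  have hg' := hg Y (by omega)
  rw [← hl] at hg'
  have h4 : 4 * Y ≤ 2 ^ l := by rw [hl]; exact Nat.le_pow_clog (by norm_num) _
  have hl2 : 2 ≤ l := by
    by_contra hc
    have : 2 ^ l ≤ 2 ^ 1 := Nat.pow_le_pow_right (by norm_num) (by omega)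
    omega
  obtain ⟨L, hL⟩ : ∃ L, L = Nat.clog 2 l := ⟨_, rfl⟩
  have hL1 : l ≤ 2 ^ L := by rw [hL]; exact Nat.le_pow_clog (by norm_num) _
  have hL2 : 2 ^ L ≤ 2 * l := by
    have h1 : 2 ^ (L - 1) < l := by
      rw [hL]; exact Nat.pow_pred_clog_lt_self (by norm_num) (by omega)
    have h2 : 2 ^ L ≤ 2 * 2 ^ (L - 1) := by
      rw [← pow_succ']
      exact Nat.pow_le_pow_right (by norm_num) (by omega)
    omega
  have hKL1 : 32 * l ≤ Kn L := by unfold Kn; omega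
  have hKL2 : 80 * Kn L ≤ 655360 * l := by unfold Kn; omega
  obtain ⟨e, he⟩ : ∃ e, e = 160 * Kn L * l := ⟨_, rfl⟩
  have he2 : e ≤ 1310720 * l ^ 2 := by
    rw [he]
    calc 160 * Kn L * l = 2 * (80 * Kn L) * l := by ring
      _ ≤ 2 * (655360 * l) * l := by gcongr
      _ = 1310720 * l ^ 2 := by ring
  have hbase := con_base_two Y l e L (by omega) h4 he.ge
  have hlY : 10240 * l + 1 ≤ Y := by
    have h1 : 655360 * l ≤ (655360 * l) ^ 20 := Nat.le_self_pow (by norm_num) _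
    omega
  -- the largest admissible level
  have hex : ∃ k, Y < (80 * Kn (L + k)) ^ 20 := by
    refine ⟨Y, ?_⟩
    have h1 : Y < 2 ^ Y := Nat.lt_two_pow_self
    have h2 : 2 ^ Y ≤ 80 * Kn (L + Y) := by
      unfold Kn
      have h3 : 2 ^ Y ≤ 2 ^ (L + Y) := Nat.pow_le_pow_right (by norm_num) (by omega)
      omega
    have h3 : 80 * Kn (L + Y) ≤ (80 * Kn (L + Y)) ^ 20 := Nat.le_self_pow (by norm_num) _
    omega
  classical
  obtain ⟨k1, hk1⟩ : ∃ k1, k1 = Nat.find hex := ⟨_, rfl⟩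
  have hk1spec : Y < (80 * Kn (L + k1)) ^ 20 := by rw [hk1]; exact Nat.find_spec hex
  have hk10 : k1 ≠ 0 := by
    rintro rfl
    have h1 : (80 * Kn (L + 0)) ^ 20 ≤ (655360 * l) ^ 20 := Nat.pow_le_pow_left hKL2 20
    omega
  obtain ⟨k, rfl⟩ : ∃ k, k1 = k + 1 := ⟨k1 - 1, by omega⟩
  have hk : (80 * Kn (L + k)) ^ 20 ≤ Y := by
    have := Nat.find_min hex (m := k) (by omega)
    omega
  obtain ⟨K, hK⟩ : ∃ K, K = Kn (L + k) := ⟨_, rfl⟩
  have hKs : Kn (L + (k + 1)) = 2 * K := by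
    rw [hK]; exact STEPAUX.Kn_succ (L + k)
  have hKpos : 4096 ≤ K := by rw [hK]; exact STEPAUX.Kn_pos (L + k)
  rw [hKs] at hk1spec
  have hkl : k ≤ l := by
    have h1 : 2 ^ k ≤ K := by
      rw [hK]; unfold Kn
      have h3 : 2 ^ k ≤ 2 ^ (L + k) := Nat.pow_le_pow_right (by norm_num) (by omega)
      omega
    have h3 : 80 * Kn (L + k) ≤ (80 * Kn (L + k)) ^ 20 := Nat.le_self_pow (by norm_num) _
    rw [← hK] at h3 hk
    have h5 : 2 ^ k ≤ 2 ^ l := by omega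
    exact (Nat.pow_le_pow_iff_right (by norm_num)).1 h5
  have hcon := con_chain Y l e 1 L 0 (2 * e + 2)
    (fun ℓ e loss n bud h h1 h2 h3 h4 h5 => hstep Y (by omega) ℓ e loss n bud h h1 h2 h3 h4 h5)
    h4 hKL1 hlY hbase k hk
  rw [← hK] at hcon hk
  -- the sets of primes
  have h320 : (320 * K) ^ 2 ≤ Y := by
    have h1 : (320 * K) ^ 2 ≤ (80 * K) ^ 20 := by
      calc (320 * K) ^ 2 = 16 * (80 * K) ^ 2 := by ring
        _ ≤ (80 * K) ^ 18 * (80 * K) ^ 2 := by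
            refine Nat.mul_le_mul_right _ ?_
            calc 16 ≤ 80 * K := by omega
              _ ≤ (80 * K) ^ 18 := Nat.le_self_pow (by norm_num) _
        _ = (80 * K) ^ 20 := by ring
    omega
  have hcard : 160 * K ≤ (PP Y).card := by
    refine hmany Y (by omega) _ ?_
    have : (160 * K) ^ 2 ≤ (320 * K) ^ 2 := Nat.pow_le_pow_left (by omega) 2
    omega
  obtain ⟨V, hV, hVc⟩ := Finset.exists_subset_card_eq hcard
  obtain ⟨W, hW1, hW2, hW3, X, hX1, hX2⟩ := hcon V ∅ hV (by omega) (by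
    rw [hVc, card_empty]
    have e1 : 160 * K + 0 + (0 + 160 * K) = 320 * K := by ring
    rw [e1]
    exact h320)
  rw [one_mul] at hX1
  refine ⟨80 * K, e, 2 * e + 2 + 40 * (10240 * l + 1) * k, V, W, hV, hW1, ?_, by omega, by omega,
    ?_, he2, ?_, ?_⟩
  · simpa using hW2
  · have e1 : 2 * (80 * K) = 80 * (2 * K) := by ring
    rw [e1]
    exact hk1spec
  · have h1 : 40 * (10240 * l + 1) * k ≤ 409640 * l ^ 2 := by
      calc 40 * (10240 * l + 1) * k ≤ 40 * (10240 * l + l) * l := by gcongr; omega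
        _ = 409640 * l ^ 2 := by ring
    have h2 : 2 ≤ 2 * l ^ 2 := by nlinarith
    unfold cA
    omega
  · exact LEVBASE.rep_mono hX2 (Nat.mul_le_mul_left _ hX1)

end Pool.Agent.H202HN
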