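import Mathlib
import Pool.Agent.H202HN.A

/-! Practical numbers and `n!`: divisibility and the recursion. -/

set_option autoImplicit false

namespace Pool.Agent.H202HN

open Finset Pool.Agent.H256R2.EF Filter

theorem chunk (B g N : ℕ) (hg : 0 < g) (hB : B ^ g ≤ N) (hB1 : 1 ≤ B) : ∀ (k : ℕ) (l : List ℕ),
    l.length ≤ g * k → (∀ p ∈ l, 2 ≤ p ∧ p ≤ B) →
    ∃ Ps : List ℕ, Ps.prod = l.prod ∧ (∀ P ∈ Ps, 1 < P ∧ P ≤ N) ∧ Ps.length ≤ k := by
  intro k
  induction k with
  | zero =>
    intro l hl _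
    have : l = [] := List.length_eq_zero_iff.1 (by omega)
    subst this
    exact ⟨[], rfl, by simp, le_rfl⟩
  | succ k ih =>
    intro l hl hp
    by_cases hnil : l = []
    · subst hnil
      exact ⟨[], rfl, by simp, by simp⟩
    · obtain ⟨Ps, h1, h2, h3⟩ := ih (l.drop g) (by
        rw [List.length_drop]
        have : g * (k + 1) = g * k + g := by ring
        omega) (fun p hp' => hp p (List.mem_of_mem_drop hp'))
      refine ⟨(l.take g).prod :: Ps, ?_, ?_, by simp; omega⟩
      · rw [List.prod_cons, h1]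
        exact List.prod_take_mul_prod_drop l g
      · intro P hP
        rcases List.mem_cons.1 hP with rfl | hP
        · have ht : ∀ p ∈ l.take g, 2 ≤ p ∧ p ≤ B := fun p hp' => hp p (List.mem_of_mem_take hp')
          constructor
          · have h4 : 2 ^ (l.take g).length ≤ (l.take g).prod :=
              List.pow_card_le_prod (l.take g) 2 (fun p hp' => (ht p hp').1)
            have h5 : 1 ≤ (l.take g).length := by
              rw [List.length_take]
              have : 0 < l.length := List.length_pos_iff.2 hnil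
              omega
            have h6 : 2 ^ 1 ≤ 2 ^ (l.take g).length := Nat.pow_le_pow_right (by norm_num) h5
            omega
          · have h4 : (l.take g).prod ≤ B ^ (l.take g).length :=
              List.prod_le_pow_card (l.take g) B (fun p hp' => (ht p hp').2)
            have h5 : (l.take g).length ≤ g := by rw [List.length_take]; omega
            exact h4.trans ((Nat.pow_le_pow_right hB1 h5).trans hB)
        · exact h2 P hP

theorem two_pow_dvd_factorial (e n : ℕ) (h : 2 * e ≤ n) : 2 ^ e ∣ n.factorial := by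
  rcases Nat.eq_zero_or_pos e with rfl | he
  · simp
  · have h1 : (2 * e).factorial ∣ n.factorial := Nat.factorial_dvd_factorial h
    have h2 : 2 ^ e ∣ (2 * e).factorial := by
      obtain ⟨m, hm⟩ : ∃ m, 2 * e = m + 1 := ⟨2 * e - 1, by omega⟩
      have h3 := Nat.doubleFactorial_two_mul e
      rw [hm, Nat.factorial_eq_mul_doubleFactorial, ← hm, h3, mul_assoc]
      exact Dvd.intro _ rfl
    exact h2.trans h1

theorem N_dvd_factorial (Y e n : ℕ) (V W : Finset ℕ) (hY : 2 ≤ Y) (hV : V ⊆ PP Y) (hW : W ⊆ PP Y)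
    (hd : Disjoint W V) (he : 2 * e ≤ n) (hn : 4 * Y ≤ n) :
    (∏ q ∈ V, q) * (2 ^ e * ∏ q ∈ W, q) ∣ n.factorial := by
  classical
  have e1 : (∏ q ∈ V, q) * (2 ^ e * ∏ q ∈ W, q) = 2 ^ e * ∏ q ∈ W ∪ V, q := by
    rw [Finset.prod_union hd]; ring
  rw [e1]
  have hU : W ∪ V ⊆ PP Y := Finset.union_subset hW hV
  refine Nat.Coprime.mul_dvd_of_dvd_of_dvd ?_ (two_pow_dvd_factorial e n he) ?_
  · refine Nat.Coprime.pow_left e (Nat.Coprime.prod_right fun q hq => ?_)
    have h1 := STEPAUX.PP_prime (hU hq)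
    have h2 := STEPAUX.PP_lt (hU hq)
    rw [Nat.coprime_primes Nat.prime_two h1]
    omega
  · refine Finset.prod_primes_dvd _ (fun q hq => (STEPAUX.PP_prime (hU hq)).prime) fun q hq => ?_
    exact (STEPAUX.PP_prime (hU hq)).dvd_factorial.2 ((STEPAUX.PP_le (hU hq)).trans hn)

/-- recursion: from `Rep N N h` to a multiple -/
theorem rep_factorial (N M h B g k : ℕ) (hN : 0 < N) (hNM : N ∣ M) (hM : M ≠ 0)
    (hR : Rep N N h) (hB1 : 1 ≤ B) (hg : 0 < g) (hB : B ^ g ≤ N)
    (hp : ∀ p : ℕ, p.Prime → p ∣ M → p ≤ B) (hk : M < 2 ^ (g * k + 1)) :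
    Rep M M (h + h * k) := by
  obtain ⟨R, rfl⟩ := hNM
  have hR0 : R ≠ 0 := by rintro rfl; simp at hM
  have hlen : R.primeFactorsList.length ≤ g * k := by
    have h1 : 2 ^ R.primeFactorsList.length ≤ R.primeFactorsList.prod :=
      List.pow_card_le_prod _ 2 (fun p hp' => (Nat.prime_of_mem_primeFactorsList hp').two_le)
    rw [Nat.prod_primeFactorsList hR0] at h1
    have h2 : R ≤ N * R := Nat.le_mul_of_pos_left R hN
    have h3 : 2 ^ R.primeFactorsList.length < 2 ^ (g * k + 1) := by omega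
    have := (Nat.pow_lt_pow_iff_right (by norm_num : 1 < 2)).1 h3
    omega
  obtain ⟨Ps, h1, h2, h3⟩ := chunk B g N hg hB hB1 k R.primeFactorsList hlen (fun p hp' =>
    ⟨(Nat.prime_of_mem_primeFactorsList hp').two_le,
      hp p (Nat.prime_of_mem_primeFactorsList hp')
        ((Nat.dvd_of_mem_primeFactorsList hp').mul_left N)⟩)
  rw [Nat.prod_primeFactorsList hR0] at h1
  have h4 := rep_rec h N N N h hN le_rfl hR Ps (fun P hP => ⟨(h2 P hP).1, fun m => by
    have hP1 := h2 P hP
    have hlt : m % P < P := Nat.mod_lt m (by omega)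
    obtain ⟨D, hD1, hD2, hD3⟩ := hR (m % P) (by omega)
    refine ⟨D, hD1, hD3, by omega, ?_, ?_⟩
    · rw [hD2]; exact Nat.mod_modEq m P
    · intro d hd hPd
      have hd0 : 0 < d := Nat.pos_of_mem_divisors (hD1 hd)
      have h5 : P ≤ d := Nat.le_of_dvd hd0 hPd
      have h6 : d ≤ ∑ d ∈ D, d := Finset.single_le_sum (f := fun d : ℕ => d)
        (fun _ _ => Nat.zero_le _) hd
      omega⟩)
  rw [h1] at h4
  exact h4.mono (Nat.add_le_add_left (Nat.mul_le_mul_left _ h3) _)

end Pool.Agent.H202HN
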